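import Pool.Agent.RK44.Rect

/-! The accepted set of a read-`k` system inside a sensitive rectangle-free set is small. -/

namespace Pool.Agent.RK44

open Pool.Agent.SemRO (mix RectFree Sensitive)

variable {Q : Type} {n : ℕ}

lemma LS.num_eq (H : LS Q n) (S : Finset (Fin n)) (R : List (Q × Multiset Q)) (i : Fin n) :
    (Finset.univ.filter (fun j : Fin R.length => i ∈ H.V S R[j])).card = H.num S R i := by
  unfold LS.num
  rw [← Fin.sum_univ_fun_getElem, Finset.card_filter]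
  rfl

open Classical in
lemma code_card {H : LS Q n} {S : Finset (Fin n)} {k β t δ : ℕ} {R : List (Q × Multiset Q)}
    (hG : Good H S k β R) {F : Set (Fin n → Bool)} (hF : RectFree F t) (hs : Sensitive F)
    (hsound : ∀ z, H.Der z H.out → z ∈ F) (hk : 2 * k * β ≤ (Sᶜ).card)
    (hδ : 2 * 4 ^ k * δ ≤ (Sᶜ).card) :
    (Finset.univ.filter (fun z => ∀ P ∈ R, H.T z P)).card ≤ t * 2 ^ (n - δ) := by
  set K := Finset.univ.filter (fun z => ∀ P ∈ R, H.T z P) with hK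
  rcases K.eq_empty_or_nonempty with hKe | ⟨z₀, hz₀⟩
  · rw [hKe]; simp
  have hKm : ∀ z, z ∈ K ↔ ∀ P ∈ R, H.T z P := by
    intro z
    simp [hK]
  -- every variable is read
  have hread : ∀ i ∉ S, ∃ j : Fin R.length, i ∈ H.V S R[j] := by
    intro i hi
    by_contra hcon
    push Not at hcon
    have h1 : z₀ ∈ F := hsound _ (hG.sound _ ((hKm _).1 hz₀))
    apply hs z₀ h1 i
    apply hsound _ (hG.sound _ fun P hP => ?_)
    obtain ⟨l, hl⟩ := (hKm _).1 hz₀ P hP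
    refine ⟨l, hl.congr fun i' hi' => ?_⟩
    rw [Function.update_of_ne]
    rintro rfl
    obtain ⟨j, hj, rfl⟩ := List.mem_iff_getElem.1 hP
    exact hcon ⟨j, hj⟩ (LS.mem_V.2 ⟨hi, l, hl.ft, hi'⟩)
  obtain ⟨J, X, Y, hX, hY, hX2, hY2⟩ := exists_split' (fun j : Fin R.length => H.V S R[j]) Sᶜ k β δ
    (fun j i hi => Finset.mem_compl.2 (LS.mem_V.1 hi).1)
    (fun i hi => by
      rw [LS.num_eq]
      exact hG.reads i (Finset.mem_compl.1 hi))
    (fun j => hG.light _ (List.getElem_mem _)) hk hδ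
  refine card_rect3 hF (δ := δ) ?_ ?_ hX hY
  · rw [Finset.disjoint_left]
    intro i hi hi'
    obtain ⟨h1, h2⟩ := hX2 i hi
    obtain ⟨_, h3⟩ := hY2 i hi'
    obtain ⟨j, hj⟩ := hread i (Finset.mem_compl.1 h1)
    exact h3 j hj (h2 j hj)
  · intro x hx y hy hxy
    apply hsound _ (hG.sound _ fun P hP => ?_)
    obtain ⟨j, hj, rfl⟩ := List.mem_iff_getElem.1 hP
    by_cases hJ : (⟨j, hj⟩ : Fin R.length) ∈ J
    · obtain ⟨l, hl⟩ := (hKm _).1 hx _ hP
      refine ⟨l, hl.congr fun i hi => ?_⟩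
      unfold mix
      split_ifs with hiX
      · rfl
      · apply hxy i hiX
        intro hiY
        obtain ⟨h1, h2⟩ := hY2 i hiY
        exact h2 ⟨j, hj⟩ (LS.mem_V.2 ⟨Finset.mem_compl.1 h1, l, hl.ft, hi⟩) hJ
    · obtain ⟨l, hl⟩ := (hKm _).1 hy _ hP
      refine ⟨l, hl.congr fun i hi => ?_⟩
      unfold mix
      split_ifs with hiX
      · exfalso
        obtain ⟨h1, h2⟩ := hX2 i hiX
        exact hJ (h2 ⟨j, hj⟩ (LS.mem_V.2 ⟨Finset.mem_compl.1 h1, l, hl.ft, hi⟩))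
      · rfl

open Classical in
theorem system_bound (H : LS Q n) (S : Finset (Fin n)) (U : Finset Q) (k δ t : ℕ) (rk : Q → ℕ)
    (hr1 : ∀ p q, H.r1 p q → rk p < rk q)
    (hr2 : ∀ p p' q, H.r2 p p' q → rk p < rk q ∧ rk p' < rk q)
    (hU1 : ∀ p q, H.r1 p q → p ∈ U) (hU2 : ∀ p p' q, H.r2 p p' q → p ∈ U ∧ p' ∈ U)
    (hout : H.out ∈ U) (hk0 : 0 < k)
    (hleaf : ∀ q, H.lf q → 2 * k * (H.V S (q, 0)).card ≤ (Sᶜ).card) (hk : H.ReadK S k)
    {F : Set (Fin n → Bool)} (hF : RectFree F t) (hs : Sensitive F)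
    (hsound : ∀ z, H.Der z H.out → z ∈ F) (hδ : 2 * 4 ^ k * δ ≤ (Sᶜ).card) :
    (Finset.univ.filter (fun z => H.Der z H.out)).card ≤
      (U.card + 2) ^ ((2 * (k * k) + 1) * (4 * (k * k) + 1)) * (t * 2 ^ (n - δ)) := by
  obtain ⟨T, hT1, hT2⟩ := codes_card U (2 * (k * k)) (4 * (k * k) + 1)
  have h2k : 0 < 2 * k := by omega
  set β := (Sᶜ).card / (2 * k) with hβ
  have hβ1 : 2 * k * β ≤ (Sᶜ).card := Nat.mul_div_le _ _
  have hβ2 : (Sᶜ).card < 2 * k * (β + 1) := by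
    have := Nat.lt_mul_div_succ (Sᶜ).card h2k
    exact this
  have hsub : Finset.univ.filter (fun z => H.Der z H.out) ⊆
      (T.filter (fun R => Good H S k β R)).biUnion
        (fun R => Finset.univ.filter (fun z => ∀ P ∈ R, H.T z P)) := by
    intro y hy
    obtain ⟨R, hG, hR1, hR2, hR3⟩ := exists_code H S U k β rk hr1 hr2 hU1 hU2 hout
      (fun q hq => by
        rw [hβ, Nat.le_div_iff_mul_le h2k, mul_comm]
        exact hleaf q hq) hk hβ2 (Finset.mem_filter.1 hy).2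
    exact Finset.mem_biUnion.2 ⟨R, Finset.mem_filter.2 ⟨hT2 R hR2 hR3, hG⟩,
      Finset.mem_filter.2 ⟨Finset.mem_univ _, hR1⟩⟩
  refine (Finset.card_le_card hsub).trans (Finset.card_biUnion_le.trans ?_)
  refine (Finset.sum_le_card_nsmul _ _ (t * 2 ^ (n - δ)) fun R hR => ?_).trans ?_
  · exact code_card (Finset.mem_filter.1 hR).2 hF hs hsound hβ1 hδ
  · rw [smul_eq_mul]
    exact Nat.mul_le_mul_right _ ((Finset.card_le_card (Finset.filter_subset _ _)).trans hT1)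

end Pool.Agent.RK44
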