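import Pool.Agent.JT.CircDefs

/-! Formal justification trees of Boolean circuits. -/

namespace Pool.Agent.RK44

open Pool.Agent.JT

/-- Formal justification trees. `Formal C w b l` means: `l` lists the inputs of the circuit at the
leaves (from left to right, with repetitions) of a formal justification tree of the statement that
the node `w` has the value `b`. The rules are those of justification trees (a conjunction is
justified to be true by justifying both inputs to be true, and to be false by justifying one input
to be false; dually for disjunctions; a negation is justified by justifying its input), but a leaf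
may claim any value of its input, and different leaves may claim different values. -/
inductive Formal {m : ℕ} (C : Circuit m) : Fin m ⊕ Fin C.size → Bool → List (Fin m) → Prop
  | leaf (j : Fin m) (b : Bool) : Formal C (.inl j) b [j]
  | and_true {g : Fin C.size} {a b : Fin m ⊕ Fin (g : ℕ)} {l l' : List (Fin m)} :
      C.gate g = .and a b → Formal C (C.node a) true l → Formal C (C.node b) true l' →
      Formal C (.inr g) true (l ++ l')
  | and_false_left {g : Fin C.size} {a b : Fin m ⊕ Fin (g : ℕ)} {l : List (Fin m)} :
      C.gate g = .and a b → Formal C (C.node a) false l → Formal C (.inr g) false l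
  | and_false_right {g : Fin C.size} {a b : Fin m ⊕ Fin (g : ℕ)} {l : List (Fin m)} :
      C.gate g = .and a b → Formal C (C.node b) false l → Formal C (.inr g) false l
  | or_true_left {g : Fin C.size} {a b : Fin m ⊕ Fin (g : ℕ)} {l : List (Fin m)} :
      C.gate g = .or a b → Formal C (C.node a) true l → Formal C (.inr g) true l
  | or_true_right {g : Fin C.size} {a b : Fin m ⊕ Fin (g : ℕ)} {l : List (Fin m)} :
      C.gate g = .or a b → Formal C (C.node b) true l → Formal C (.inr g) true l
  | or_false {g : Fin C.size} {a b : Fin m ⊕ Fin (g : ℕ)} {l l' : List (Fin m)} :
      C.gate g = .or a b → Formal C (C.node a) false l → Formal C (C.node b) false l' →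
      Formal C (.inr g) false (l ++ l')
  | not {g : Fin C.size} {a : Fin m ⊕ Fin (g : ℕ)} {b : Bool} {l : List (Fin m)} :
      C.gate g = .not a → Formal C (C.node a) b l → Formal C (.inr g) (!b) l

/-- The inputs of the circuit `C` are local functions of `N` variables, input `j` depending on the
variables in `W j`. `ReadAtMost k C W S` means: on every formal justification tree of the value
`true` of the output, at most `k` leaves depend on the variable `i`, for every `i` outside `S`. -/
def ReadAtMost {m N : ℕ} (k : ℕ) (C : Circuit m) (W : Fin m → Finset (Fin N))
    (S : Finset (Fin N)) : Prop :=
  ∀ l : List (Fin m), Formal C C.out true l → ∀ i : Fin N, i ∉ S →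
    (l.filter (fun j => i ∈ W j)).length ≤ k

end Pool.Agent.RK44
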