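import Pool.Agent.JT.Circ
import Pool.Agent.JT.Main
import Pool.Agent.RK44.Bound
import Pool.Agent.RK44.Defs

/-! Circuits over local functions as rule systems. -/

namespace Pool.Agent.RK44

open Pool.Agent.JT

variable {m N n : ℕ}

/-- the rule system of a circuit over local functions, after fixing all but the first `n`
variables -/
def toLS (C : Circuit m) (f : Fin m → (Fin N → Bool) → Bool) (W : Fin m → Finset (Fin N))
    (hW : ∀ j x y, (∀ i ∈ W j, x i = y i) → f j x = f j y) (hn : n ≤ N) (base : Fin N → Bool) :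
    LS ((Fin m ⊕ Fin C.size) × Bool) n where
  lf q := ∃ j b, q = (.inl j, b)
  vars q := match q.1 with
    | .inl j => Finset.univ.filter (fun i : Fin n => Fin.castLE hn i ∈ W j)
    | .inr _ => ∅
  tv q x := match q.1 with
    | .inl j => f j (paste n base x) = q.2
    | .inr _ => False
  dep := by
    rintro ⟨j | g, b⟩ x y hxy h
    · change f j (paste n base y) = b
      change f j (paste n base x) = b at h
      rw [← h]
      apply hW
      intro i hi
      by_cases hin : (i : ℕ) < n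
      · simp only [paste, dif_pos hin]
        exact (hxy ⟨i, hin⟩ (Finset.mem_filter.2 ⟨Finset.mem_univ _, hi⟩)).symm
      · simp only [paste, dif_neg hin]
    · exact h
  r1 p q := ∃ (g : Fin C.size) (a : Fin m ⊕ Fin (g : ℕ)),
    ((∃ b, C.gate g = .and a b ∨ C.gate g = .and b a) ∧ p = (C.node a, false) ∧ q = (.inr g, false)) ∨
    ((∃ b, C.gate g = .or a b ∨ C.gate g = .or b a) ∧ p = (C.node a, true) ∧ q = (.inr g, true)) ∨
    (C.gate g = .not a ∧ ∃ b, p = (C.node a, b) ∧ q = (.inr g, !b))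
  r2 p p' q := ∃ (g : Fin C.size) (a b : Fin m ⊕ Fin (g : ℕ)),
    (C.gate g = .and a b ∧ p = (C.node a, true) ∧ p' = (C.node b, true) ∧ q = (.inr g, true)) ∨
    (C.gate g = .or a b ∧ p = (C.node a, false) ∧ p' = (C.node b, false) ∧ q = (.inr g, false))
  out := (C.out, true)

/-- rank of a state -/
def rk {C : Circuit m} (q : (Fin m ⊕ Fin C.size) × Bool) : ℕ :=
  match q.1 with
  | .inl _ => 0
  | .inr g => (g : ℕ) + 1

lemma rk_node {C : Circuit m} {g : Fin C.size} (a : Fin m ⊕ Fin (g : ℕ)) (b b' : Bool) :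
    rk (C := C) (C.node a, b) < rk (C := C) (.inr g, b') := by
  rcases a with j | j
  · exact Nat.succ_pos _
  · have := j.2
    change (j : ℕ) + 1 < (g : ℕ) + 1
    omega

/-- inputs of a gate -/
def ins {W : Type} : Gate W → List W
  | .and a b => [a, b]
  | .or a b => [a, b]
  | .not a => [a]

lemma ins_length {W : Type} (g : Gate W) : (ins g).length ≤ 2 := by
  cases g <;> simp [ins]

open Classical in
/-- the nodes used as inputs, and the output -/
noncomputable def used (C : Circuit m) : Finset ((Fin m ⊕ Fin C.size) × Bool) :=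
  (insert C.out ((Finset.univ : Finset (Fin C.size)).biUnion
    (fun g => ((ins (C.gate g)).map C.node).toFinset))) ×ˢ (Finset.univ : Finset Bool)

lemma used_card (C : Circuit m) : (used C).card ≤ 4 * C.size + 2 := by
  classical
  unfold used
  rw [Finset.card_product]
  have h1 : ((Finset.univ : Finset (Fin C.size)).biUnion
      (fun g => ((ins (C.gate g)).map C.node).toFinset)).card ≤ C.size * 2 := by
    refine Finset.card_biUnion_le.trans ?_
    refine (Finset.sum_le_card_nsmul _ _ 2 fun g _ => ?_).trans ?_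
    · refine (List.toFinset_card_le _).trans ?_
      rw [List.length_map]
      exact ins_length _
    · rw [Finset.card_univ, Fintype.card_fin, smul_eq_mul]
  have h2 := Finset.card_insert_le C.out ((Finset.univ : Finset (Fin C.size)).biUnion
      (fun g => ((ins (C.gate g)).map C.node).toFinset))
  rw [Finset.card_univ, Fintype.card_bool]
  omega

lemma out_used (C : Circuit m) (b : Bool) : (C.out, b) ∈ used C := by
  unfold used
  exact Finset.mem_product.2 ⟨Finset.mem_insert_self _ _, Finset.mem_univ _⟩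

lemma node_used {C : Circuit m} {g : Fin C.size} {a : Fin m ⊕ Fin (g : ℕ)}
    (h : a ∈ ins (C.gate g)) (b : Bool) : (C.node a, b) ∈ used C := by
  classical
  unfold used
  refine Finset.mem_product.2 ⟨Finset.mem_insert_of_mem ?_, Finset.mem_univ _⟩
  exact Finset.mem_biUnion.2 ⟨g, Finset.mem_univ _, List.mem_toFinset.2
    (List.mem_map.2 ⟨a, h, rfl⟩)⟩

section

variable {C : Circuit m} {f : Fin m → (Fin N → Bool) → Bool} {W : Fin m → Finset (Fin N)}
  {hW : ∀ j x y, (∀ i ∈ W j, x i = y i) → f j x = f j y} {hn : n ≤ N} {base : Fin N → Bool}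

lemma toLS_r1 {p q : (Fin m ⊕ Fin C.size) × Bool} (h : (toLS C f W hW hn base).r1 p q) :
    rk p < rk q ∧ p ∈ used C := by
  obtain ⟨g, a, ⟨⟨b, hb | hb⟩, rfl, rfl⟩ | ⟨⟨b, hb | hb⟩, rfl, rfl⟩ | ⟨hg, b, rfl, rfl⟩⟩ := h
  · exact ⟨rk_node a _ _, node_used (by rw [hb]; simp [ins]) _⟩
  · exact ⟨rk_node a _ _, node_used (by rw [hb]; simp [ins]) _⟩
  · exact ⟨rk_node a _ _, node_used (by rw [hb]; simp [ins]) _⟩
  · exact ⟨rk_node a _ _, node_used (by rw [hb]; simp [ins]) _⟩
  · exact ⟨rk_node a _ _, node_used (by rw [hg]; simp [ins]) _⟩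

lemma toLS_r2 {p p' q : (Fin m ⊕ Fin C.size) × Bool} (h : (toLS C f W hW hn base).r2 p p' q) :
    (rk p < rk q ∧ rk p' < rk q) ∧ p ∈ used C ∧ p' ∈ used C := by
  obtain ⟨g, a, b, ⟨hg, rfl, rfl, rfl⟩ | ⟨hg, rfl, rfl, rfl⟩⟩ := h
  · exact ⟨⟨rk_node a _ _, rk_node b _ _⟩, node_used (by rw [hg]; simp [ins]) _,
      node_used (by rw [hg]; simp [ins]) _⟩
  · exact ⟨⟨rk_node a _ _, rk_node b _ _⟩, node_used (by rw [hg]; simp [ins]) _,
      node_used (by rw [hg]; simp [ins]) _⟩

lemma toLS_ft {q : (Fin m ⊕ Fin C.size) × Bool} {l : Multiset (Fin n)}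
    {h : Multiset ((Fin m ⊕ Fin C.size) × Bool)} (ht : (toLS C f W hW hn base).FT q l h) :
    h = 0 → ∃ l' : List (Fin m), Formal C q.1 q.2 l' ∧ ∀ i : Fin n,
      l.count i = (l'.filter (fun j => Fin.castLE hn i ∈ W j)).length := by
  induction ht with
  | hole q =>
    intro h0
    exact absurd h0 (Multiset.singleton_ne_zero q)
  | leaf hq =>
    intro _
    obtain ⟨j, b, rfl⟩ := hq
    refine ⟨[j], .leaf j b, fun i => ?_⟩
    change Multiset.count i (Finset.univ.filter (fun i : Fin n => Fin.castLE hn i ∈ W j)).val = _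
    rw [Multiset.count_eq_of_nodup (Finset.nodup _)]
    by_cases hi : Fin.castLE hn i ∈ W j
    · rw [if_pos (by simpa using hi), List.filter_cons_of_pos (by simpa using hi)]
      simp
    · rw [if_neg (by simpa using hi), List.filter_cons_of_neg (by simpa using hi)]
      simp
  | one hr _ ih =>
    intro h0
    obtain ⟨l', ih1, ih2⟩ := ih h0
    obtain ⟨g, a, ⟨⟨b, hb | hb⟩, rfl, rfl⟩ | ⟨⟨b, hb | hb⟩, rfl, rfl⟩ | ⟨hg, b, rfl, rfl⟩⟩ := hr
    · exact ⟨l', .and_false_left hb ih1, ih2⟩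
    · exact ⟨l', .and_false_right hb ih1, ih2⟩
    · exact ⟨l', .or_true_left hb ih1, ih2⟩
    · exact ⟨l', .or_true_right hb ih1, ih2⟩
    · exact ⟨l', .not hg ih1, ih2⟩
  | two hr _ _ ih ih' =>
    intro h0
    obtain ⟨l1, ih1, ih2⟩ := ih (add_eq_zero.1 h0).1
    obtain ⟨l2, ih3, ih4⟩ := ih' (add_eq_zero.1 h0).2
    refine ⟨l1 ++ l2, ?_, fun i => ?_⟩
    · obtain ⟨g, a, b, ⟨hg, rfl, rfl, rfl⟩ | ⟨hg, rfl, rfl, rfl⟩⟩ := hr
      · exact .and_true hg ih1 ih3
      · exact .or_false hg ih1 ih3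
    · rw [Multiset.count_add, List.filter_append, List.length_append, ih2, ih4]

lemma toLS_readK {k : ℕ} {S : Finset (Fin N)} (h : ReadAtMost k C W S) :
    (toLS C f W hW hn base).ReadK
      (Finset.univ.filter (fun i : Fin n => Fin.castLE hn i ∈ S)) k := by
  intro l hl i hi
  obtain ⟨l', h1, h2⟩ := toLS_ft hl rfl
  rw [h2]
  apply h l' h1
  intro h3
  exact hi (Finset.mem_filter.2 ⟨Finset.mem_univ _, h3⟩)

lemma toLS_leaf (S : Finset (Fin n)) {q : (Fin m ⊕ Fin C.size) × Bool}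
    (hq : (toLS C f W hW hn base).lf q) :
    ∃ j, ((toLS C f W hW hn base).V S (q, 0)).card ≤ (W j).card := by
  obtain ⟨j, b, rfl⟩ := hq
  refine ⟨j, ?_⟩
  have h1 : (toLS C f W hW hn base).V S ((.inl j, b), 0) ⊆
      Finset.univ.filter (fun i : Fin n => Fin.castLE hn i ∈ W j) := by
    intro i hi
    obtain ⟨_, l, hl, hil⟩ := LS.mem_V.1 hi
    obtain ⟨l', h2, h3⟩ := toLS_ft hl rfl
    have h4 : l' = [j] := by
      change Formal C (.inl j) b l' at h2
      cases h2
      rfl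
    have h5 := h3 i
    rw [h4] at h5
    by_contra hcon
    have h6 : Fin.castLE hn i ∉ W j := fun h => hcon (Finset.mem_filter.2 ⟨Finset.mem_univ _, h⟩)
    rw [List.filter_cons_of_neg (by simpa using h6)] at h5
    simp at h5
    exact h5 hil
  refine (Finset.card_le_card h1).trans ?_
  refine Finset.card_le_card_of_injOn (Fin.castLE hn) ?_ ?_
  · intro i hi
    exact (Finset.mem_filter.1 hi).2
  · intro i _ j _ h
    exact Fin.castLE_injective hn h

lemma toLS_der {x : Fin n → Bool} {q : (Fin m ⊕ Fin C.size) × Bool}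
    (h : (toLS C f W hW hn base).Der x q) :
    ∃ l, C.Just (fun j => f j (paste n base x)) q.1 q.2 l := by
  induction h with
  | leaf hq ht =>
    obtain ⟨j, b, rfl⟩ := hq
    change f j (paste n base x) = b at ht
    refine ⟨[j], ?_⟩
    subst ht
    exact .leaf j
  | one hr _ ih =>
    obtain ⟨l', ih⟩ := ih
    obtain ⟨g, a, ⟨⟨b, hb | hb⟩, rfl, rfl⟩ | ⟨⟨b, hb | hb⟩, rfl, rfl⟩ | ⟨hg, b, rfl, rfl⟩⟩ := hr
    · exact ⟨_, .and_false_left hb ih⟩
    · exact ⟨_, .and_false_right hb ih⟩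
    · exact ⟨_, .or_true_left hb ih⟩
    · exact ⟨_, .or_true_right hb ih⟩
    · exact ⟨_, .not hg ih⟩
  | two hr _ _ ih ih' =>
    obtain ⟨l1, ih1⟩ := ih
    obtain ⟨l2, ih2⟩ := ih'
    obtain ⟨g, a, b, ⟨hg, rfl, rfl, rfl⟩ | ⟨hg, rfl, rfl, rfl⟩⟩ := hr
    · exact ⟨_, .and_true hg ih1 ih2⟩
    · exact ⟨_, .or_false hg ih1 ih2⟩

lemma toLS_complete {x : Fin n → Bool} {w : Fin m ⊕ Fin C.size} {b : Bool} {l : List (Fin m)}
    (h : C.Just (fun j => f j (paste n base x)) w b l) :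
    (toLS C f W hW hn base).Der x (w, b) := by
  induction h with
  | leaf j => exact .leaf ⟨j, _, rfl⟩ rfl
  | and_true hg _ _ ih1 ih2 => exact .two ⟨_, _, _, Or.inl ⟨hg, rfl, rfl, rfl⟩⟩ ih1 ih2
  | and_false_left hg _ ih => exact .one ⟨_, _, Or.inl ⟨⟨_, Or.inl hg⟩, rfl, rfl⟩⟩ ih
  | and_false_right hg _ ih => exact .one ⟨_, _, Or.inl ⟨⟨_, Or.inr hg⟩, rfl, rfl⟩⟩ ih
  | or_true_left hg _ ih => exact .one ⟨_, _, Or.inr (Or.inl ⟨⟨_, Or.inl hg⟩, rfl, rfl⟩)⟩ ih
  | or_true_right hg _ ih => exact .one ⟨_, _, Or.inr (Or.inl ⟨⟨_, Or.inr hg⟩, rfl, rfl⟩)⟩ ih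
  | or_false hg _ _ ih1 ih2 => exact .two ⟨_, _, _, Or.inr ⟨hg, rfl, rfl, rfl⟩⟩ ih1 ih2
  | not hg _ ih => exact .one ⟨_, _, Or.inr (Or.inr ⟨hg, _, rfl, rfl⟩)⟩ ih

lemma toLS_iff (x : Fin n → Bool) :
    C.eval (fun j => f j (paste n base x)) = true ↔
      (toLS C f W hW hn base).Der x (toLS C f W hW hn base).out := by
  constructor
  · intro h
    obtain ⟨l, hl⟩ := C.just_complete (fun j => f j (paste n base x)) C.out
    have h1 : C.val (fun j => f j (paste n base x)) C.out = true := h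
    rw [h1] at hl
    exact toLS_complete hl
  · intro h
    obtain ⟨l, hl⟩ := toLS_der h
    exact Circuit.just_sound hl

end

end Pool.Agent.RK44
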