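import Pool.Agent.RK44.Greedy

/-! Counting pieces: the codes of derivations in a read-`k` system. -/

namespace Pool.Agent.RK44

variable {Q : Type} {n : ℕ}

/-- every formal tree of the goal reads every variable outside `S` at most `k` times -/
def LS.ReadK (H : LS Q n) (S : Finset (Fin n)) (k : ℕ) : Prop :=
  ∀ l, H.FT H.out l 0 → ∀ i ∉ S, l.count i ≤ k

/-- number of the pieces of `R` that may read the variable `i` -/
noncomputable def LS.num (H : LS Q n) (S : Finset (Fin n)) (R : List (Q × Multiset Q))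
    (i : Fin n) : ℕ := (R.map fun P => if i ∈ H.V S P then 1 else 0).sum

lemma LS.num_le {H : LS Q n} {S : Finset (Fin n)} {k : ℕ} (hk : H.ReadK S k)
    {R : List (Q × Multiset Q)} (hT : ∀ P ∈ R, ∃ l, H.FT P.1 l P.2)
    (hF : ∀ c : Q × Multiset Q → Multiset (Fin n), (∀ P ∈ R, H.FT P.1 (c P) P.2) →
      ∃ l, H.FT H.out ((R.map c).sum + l) 0) {i : Fin n} (hi : i ∉ S) : H.num S R i ≤ k := by
  classical
  have hc : ∀ P : Q × Multiset Q, ∃ l : Multiset (Fin n), (P ∈ R → H.FT P.1 l P.2) ∧
      (i ∈ H.V S P → i ∈ l) := by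
    intro P
    by_cases h : i ∈ H.V S P
    · obtain ⟨_, l, h1, h2⟩ := LS.mem_V.1 h
      exact ⟨l, fun _ => h1, fun _ => h2⟩
    · by_cases hP : P ∈ R
      · obtain ⟨l, hl⟩ := hT P hP
        exact ⟨l, fun _ => hl, fun h' => absurd h' h⟩
      · exact ⟨0, fun h' => absurd h' hP, fun h' => absurd h' h⟩
  choose c hc1 hc2 using hc
  obtain ⟨l, hl⟩ := hF c fun P hP => hc1 P hP
  have h1 := hk _ hl i hi
  rw [Multiset.count_add] at h1
  refine le_trans ?_ (le_trans (Nat.le_add_right _ _) h1)
  unfold LS.num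
  clear hF hl h1 hT hc1
  induction R with
  | nil => simp
  | cons P R ih =>
    rw [List.map_cons, List.sum_cons, List.map_cons, List.sum_cons, Multiset.count_add]
    apply Nat.add_le_add _ ih
    split_ifs with h
    · exact Multiset.one_le_count_iff_mem.2 (hc2 P h)
    · exact Nat.zero_le _

lemma LS.sum_num (H : LS Q n) (S : Finset (Fin n)) (R : List (Q × Multiset Q)) :
    (R.map fun P => (H.V S P).card).sum = ∑ i ∈ Sᶜ, H.num S R i := by
  induction R with
  | nil => simp [LS.num]
  | cons P R ih =>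
    rw [List.map_cons, List.sum_cons, ih]
    have : ∀ i, H.num S (P :: R) i = (if i ∈ H.V S P then 1 else 0) + H.num S R i := by
      intro i
      unfold LS.num
      rw [List.map_cons, List.sum_cons]
    rw [Finset.sum_congr rfl fun i _ => this i, Finset.sum_add_distrib]
    congr 1
    rw [← Finset.sum_filter, Finset.sum_const, smul_eq_mul, mul_one]
    congr 1
    ext i
    rw [Finset.mem_filter, Finset.mem_compl]
    constructor
    · intro h
      exact ⟨(LS.mem_V.1 h).1, h⟩
    · intro h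
      exact h.2

/-- the properties of a code -/
structure Good (H : LS Q n) (S : Finset (Fin n)) (k β : ℕ) (R : List (Q × Multiset Q)) : Prop where
  sound : ∀ z, (∀ P ∈ R, H.T z P) → H.Der z H.out
  light : ∀ P ∈ R, (H.V S P).card ≤ β
  reads : ∀ i ∉ S, H.num S R i ≤ k

theorem exists_code (H : LS Q n) (S : Finset (Fin n)) (U : Finset Q) (k β : ℕ) (rk : Q → ℕ)
    (hr1 : ∀ p q, H.r1 p q → rk p < rk q)
    (hr2 : ∀ p p' q, H.r2 p p' q → rk p < rk q ∧ rk p' < rk q)
    (hU1 : ∀ p q, H.r1 p q → p ∈ U) (hU2 : ∀ p p' q, H.r2 p p' q → p ∈ U ∧ p' ∈ U)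
    (hout : H.out ∈ U)
    (hleaf : ∀ q, H.lf q → (H.V S (q, 0)).card ≤ β) (hk : H.ReadK S k)
    (hβ : (Sᶜ).card < 2 * k * (β + 1)) {y : Fin n → Bool} (hy : H.Der y H.out) :
    ∃ R, Good H S k β R ∧ (∀ P ∈ R, H.T y P) ∧ R.length ≤ 4 * (k * k) + 1 ∧
      ∀ P ∈ R, P.1 ∈ U ∧ (∀ q ∈ P.2, q ∈ U) ∧ P.2.card ≤ 2 * (k * k) := by
  obtain ⟨h, C, E, d⟩ := exists_dec H S U β rk hr1 hr2 hU1 hU2 hleaf hy hout
  have hE : E.length ≤ 2 * (k * k) := by
    have h1 : ∀ i ∈ Sᶜ, H.num S E i ≤ k := by
      intro i hi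
      refine LS.num_le hk (fun P hP => ?_) (fun c hc => ?_) (Finset.mem_compl.1 hi)
      · obtain ⟨l, hl⟩ := d.tE P hP
        exact ⟨l, hl.ft⟩
      · obtain ⟨l, hl⟩ := d.tx
        refine ⟨l, ?_⟩
        rw [add_comm]
        exact (d.fillE c hc).close hl.ft
    have h2 := Finset.sum_le_card_nsmul _ _ _ h1
    rw [← LS.sum_num, smul_eq_mul] at h2
    have h3 : E.length * (β + 1) ≤ (E.map fun P => (H.V S P).card).sum := by
      have : ∀ E' : List (Q × Multiset Q), (∀ P ∈ E', β + 1 ≤ (H.V S P).card) →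
          E'.length * (β + 1) ≤ (E'.map fun P => (H.V S P).card).sum := by
        intro E'
        induction E' with
        | nil => simp
        | cons P E' ih =>
          intro hh
          rw [List.length_cons, List.map_cons, List.sum_cons, Nat.succ_mul, add_comm]
          exact Nat.add_le_add (hh P List.mem_cons_self) (ih fun P hP =>
            hh P (List.mem_cons_of_mem _ hP))
      exact this E d.heavy
    by_contra hcon
    push Not at hcon
    have h4 : (2 * (k * k) + 1) * (β + 1) ≤ E.length * (β + 1) := Nat.mul_le_mul_right _ hcon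
    have h5 : (Sᶜ).card * k ≤ 2 * k * (β + 1) * k := Nat.mul_le_mul_right _ hβ.le
    have h6 : 2 * k * (β + 1) * k = 2 * (k * k) * (β + 1) := by ring
    have h7 : (2 * (k * k) + 1) * (β + 1) = 2 * (k * k) * (β + 1) + (β + 1) := by ring
    omega
  refine ⟨(H.out, h) :: C, ⟨?_, ?_, ?_⟩, ?_, ?_, ?_⟩
  · intro z hz
    obtain ⟨l, hl⟩ := hz (H.out, h) List.mem_cons_self
    exact hl.der (d.sem z fun P hP => hz P (List.mem_cons_of_mem _ hP))
  · intro P hP
    rcases List.mem_cons.1 hP with rfl | hP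
    · exact d.light
    · exact d.lightC P hP
  · intro i hi
    refine LS.num_le hk (fun P hP => ?_) (fun c hc => ?_) hi
    · rcases List.mem_cons.1 hP with rfl | hP
      · obtain ⟨l, hl⟩ := d.tx
        exact ⟨l, hl.ft⟩
      · obtain ⟨l, hl⟩ := d.tC P hP
        exact ⟨l, hl.ft⟩
    · refine ⟨0, ?_⟩
      rw [List.map_cons, List.sum_cons, add_zero]
      exact (d.fillC c fun P hP => hc P (List.mem_cons_of_mem _ hP)).close
        (hc (H.out, h) List.mem_cons_self)
  · intro P hP
    rcases List.mem_cons.1 hP with rfl | hP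
    · exact d.tx
    · exact d.tC P hP
  · rw [List.length_cons]
    have := d.cardC
    omega
  · intro P hP
    rcases List.mem_cons.1 hP with rfl | hP
    · exact ⟨hout, d.memh, d.cardh.trans hE⟩
    · exact ⟨(d.memC P hP).1, (d.memC P hP).2, (d.cardP P hP).trans hE⟩

open Classical in
/-- lists over a finite alphabet -/
lemma lists_card {α : Type*} (A : Finset α) (p : ℕ) : ∃ T : Finset (List α),
    T.card ≤ (A.card + 1) ^ p ∧ ∀ l : List α, l.length ≤ p → (∀ a ∈ l, a ∈ A) → l ∈ T := by
  induction p with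
  | zero =>
    refine ⟨{[]}, by simp, ?_⟩
    intro l hl _
    have : l = [] := List.length_eq_zero_iff.1 (by omega)
    simp [this]
  | succ p ih =>
    obtain ⟨T, hT, hT2⟩ := ih
    refine ⟨insert [] ((A ×ˢ T).image fun x => x.1 :: x.2), ?_, ?_⟩
    · refine (Finset.card_insert_le _ _).trans ?_
      have h1 : ((A ×ˢ T).image fun x => x.1 :: x.2).card ≤ A.card * (A.card + 1) ^ p := by
        refine Finset.card_image_le.trans ?_
        rw [Finset.card_product]
        exact Nat.mul_le_mul_left _ hT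
      have h2 : 1 ≤ (A.card + 1) ^ p := Nat.one_le_pow _ _ (by omega)
      calc _ ≤ A.card * (A.card + 1) ^ p + 1 := by omega
        _ ≤ A.card * (A.card + 1) ^ p + (A.card + 1) ^ p := by omega
        _ = _ := by rw [pow_succ]; ring
    · intro l hl hA
      cases l with
      | nil => simp
      | cons a l =>
        rw [Finset.mem_insert]
        right
        rw [Finset.mem_image]
        refine ⟨(a, l), Finset.mem_product.2 ⟨hA a List.mem_cons_self, hT2 l ?_ ?_⟩, rfl⟩
        · rw [List.length_cons] at hl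
          omega
        · intro b hb
          exact hA b (List.mem_cons_of_mem _ hb)

open Classical in
/-- the number of codes -/
lemma codes_card (U : Finset Q) (e p : ℕ) : ∃ T : Finset (List (Q × Multiset Q)),
    T.card ≤ (U.card + 2) ^ ((e + 1) * p) ∧
    ∀ R : List (Q × Multiset Q), R.length ≤ p →
      (∀ P ∈ R, P.1 ∈ U ∧ (∀ q ∈ P.2, q ∈ U) ∧ P.2.card ≤ e) → R ∈ T := by
  obtain ⟨T1, h1, h2⟩ := lists_card U e
  obtain ⟨T, h3, h4⟩ := lists_card (U ×ˢ (T1.image (Multiset.ofList : List Q → Multiset Q))) p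
  refine ⟨T, h3.trans ?_, ?_⟩
  · rw [pow_mul]
    apply Nat.pow_le_pow_left
    rw [Finset.card_product]
    have h5 : (T1.image (Multiset.ofList : List Q → Multiset Q)).card ≤ (U.card + 1) ^ e :=
      Finset.card_image_le.trans h1
    have h6 : (U.card + 1) ^ e ≤ (U.card + 2) ^ e := Nat.pow_le_pow_left (by omega) _
    have h7 : 1 ≤ (U.card + 2) ^ e := Nat.one_le_pow _ _ (by omega)
    calc _ ≤ U.card * (U.card + 2) ^ e + 1 :=
          Nat.add_le_add_right (Nat.mul_le_mul_left _ (h5.trans h6)) _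
      _ ≤ U.card * (U.card + 2) ^ e + (U.card + 2) ^ e := by omega
      _ ≤ U.card * (U.card + 2) ^ e + 2 * (U.card + 2) ^ e := by omega
      _ = _ := by rw [pow_succ]; ring
  · intro R hR hP
    refine h4 R hR fun P hPR => ?_
    obtain ⟨a1, a2, a3⟩ := hP P hPR
    refine Finset.mem_product.2 ⟨a1, Finset.mem_image.2 ⟨P.2.toList, h2 _ ?_ ?_, ?_⟩⟩
    · rw [Multiset.length_toList]
      exact a3
    · intro q hq
      exact a2 q (Multiset.mem_toList.1 hq)
    · exact Multiset.coe_toList _

end Pool.Agent.RK44
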