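import Mathlib

/-! Rule systems with arbitrary local predicates at the leaves; formal trees with holes. -/

namespace Pool.Agent.RK44

/-- A system of rules with at most two premises on the states `Q`; the leaves are predicates
depending on few of the `n` Boolean variables. -/
structure LS (Q : Type) (n : ℕ) where
  /-- leaf states -/
  lf : Q → Prop
  /-- the variables on which a leaf depends -/
  vars : Q → Finset (Fin n)
  /-- truth of a leaf -/
  tv : Q → (Fin n → Bool) → Prop
  dep : ∀ q x y, (∀ i ∈ vars q, x i = y i) → tv q x → tv q y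
  /-- `r1 p q`: `q` follows from `p` -/
  r1 : Q → Q → Prop
  /-- `r2 p p' q`: `q` follows from `p` and `p'` -/
  r2 : Q → Q → Q → Prop
  /-- the goal -/
  out : Q

variable {Q : Type} {n : ℕ}

/-- formal trees: leaves (with their variables, with repetitions) and holes -/
inductive LS.FT (H : LS Q n) : Q → Multiset (Fin n) → Multiset Q → Prop
  | hole (q : Q) : LS.FT H q 0 {q}
  | leaf {q : Q} : H.lf q → LS.FT H q (H.vars q).val 0
  | one {p q : Q} {l : Multiset (Fin n)} {h : Multiset Q} : H.r1 p q → LS.FT H p l h →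
      LS.FT H q l h
  | two {p p' q : Q} {l l' : Multiset (Fin n)} {h h' : Multiset Q} : H.r2 p p' q →
      LS.FT H p l h → LS.FT H p' l' h' → LS.FT H q (l + l') (h + h')

/-- trees with holes that are true on the input `y` -/
inductive LS.TL (H : LS Q n) (y : Fin n → Bool) : Q → Multiset (Fin n) → Multiset Q → Prop
  | hole (q : Q) : LS.TL H y q 0 {q}
  | leaf {q : Q} : H.lf q → H.tv q y → LS.TL H y q (H.vars q).val 0
  | one {p q : Q} {l : Multiset (Fin n)} {h : Multiset Q} : H.r1 p q → LS.TL H y p l h →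
      LS.TL H y q l h
  | two {p p' q : Q} {l l' : Multiset (Fin n)} {h h' : Multiset Q} : H.r2 p p' q →
      LS.TL H y p l h → LS.TL H y p' l' h' → LS.TL H y q (l + l') (h + h')

/-- derivability on the input `y` -/
inductive LS.Der (H : LS Q n) (y : Fin n → Bool) : Q → Prop
  | leaf {q : Q} : H.lf q → H.tv q y → LS.Der H y q
  | one {p q : Q} : H.r1 p q → LS.Der H y p → LS.Der H y q
  | two {p p' q : Q} : H.r2 p p' q → LS.Der H y p → LS.Der H y p' → LS.Der H y q

lemma LS.TL.ft {H : LS Q n} {y : Fin n → Bool} {q : Q} {l : Multiset (Fin n)} {h : Multiset Q}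
    (ht : H.TL y q l h) : H.FT q l h := by
  induction ht with
  | hole q => exact .hole q
  | leaf h1 _ => exact .leaf h1
  | one h1 _ ih => exact .one h1 ih
  | two h1 _ _ ih ih' => exact .two h1 ih ih'

lemma LS.TL.congr {H : LS Q n} {y z : Fin n → Bool} {q : Q} {l : Multiset (Fin n)}
    {h : Multiset Q} (ht : H.TL y q l h) (hz : ∀ i ∈ l, y i = z i) : H.TL z q l h := by
  induction ht with
  | hole q => exact .hole q
  | leaf h1 h2 => exact .leaf h1 (H.dep _ y z (fun i hi => hz i hi) h2)
  | one h1 _ ih => exact .one h1 (ih hz)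
  | two h1 _ _ ih ih' =>
    exact .two h1 (ih fun i hi => hz i (Multiset.mem_add.2 (Or.inl hi)))
      (ih' fun i hi => hz i (Multiset.mem_add.2 (Or.inr hi)))

/-- a true tree all of whose holes are derivable -/
lemma LS.TL.der {H : LS Q n} {y : Fin n → Bool} {q : Q} {l : Multiset (Fin n)} {h : Multiset Q}
    (ht : H.TL y q l h) (hh : ∀ q ∈ h, H.Der y q) : H.Der y q := by
  induction ht with
  | hole q => exact hh q (by simp)
  | leaf h1 h2 => exact .leaf h1 h2
  | one h1 _ ih => exact .one h1 (ih hh)
  | two h1 _ _ ih ih' =>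
    exact .two h1 (ih fun q hq => hh q (Multiset.mem_add.2 (Or.inl hq)))
      (ih' fun q hq => hh q (Multiset.mem_add.2 (Or.inr hq)))

/-- pasting a complete tree at a hole -/
lemma LS.FT.paste {H : LS Q n} {q w : Q} {l l' : Multiset (Fin n)} {hh : Multiset Q}
    (ht : H.FT q l hh) (hw : H.FT w l' 0) :
    ∀ K : Multiset Q, hh = w ::ₘ K → H.FT q (l + l') K := by
  classical
  induction ht with
  | hole q =>
    intro K hK
    rw [← Multiset.cons_zero q] at hK
    rcases Multiset.cons_eq_cons.1 hK with ⟨rfl, rfl⟩ | ⟨_, cs, h1, _⟩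
    · rw [zero_add]; exact hw
    · exact absurd h1.symm (Multiset.cons_ne_zero)
  | leaf h1 =>
    intro K hK
    exact absurd hK.symm (Multiset.cons_ne_zero)
  | one h1 _ ih =>
    intro K hK
    exact .one h1 (ih K hK)
  | @two p p' q l1 l2 h h' h1 hp hp' ih ih' =>
    intro K hK
    have hmem : w ∈ h + h' := by rw [hK]; exact Multiset.mem_cons_self _ _
    rcases Multiset.mem_add.1 hmem with hw1 | hw1
    · have e1 : h = w ::ₘ h.erase w := (Multiset.cons_erase hw1).symm
      have e2 : K = h.erase w + h' := by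
        have : w ::ₘ K = w ::ₘ (h.erase w + h') := by
          rw [← hK, ← Multiset.cons_add, ← e1]
        exact (Multiset.cons_inj_right w).1 this
      have := LS.FT.two h1 (ih _ e1) hp'
      rw [e2]
      have e3 : l1 + l2 + l' = l1 + l' + l2 := by
        rw [add_assoc, add_comm l2, ← add_assoc]
      rw [e3]
      exact this
    · have e1 : h' = w ::ₘ h'.erase w := (Multiset.cons_erase hw1).symm
      have e2 : K = h + h'.erase w := by
        have : w ::ₘ K = w ::ₘ (h + h'.erase w) := by
          rw [← hK, ← Multiset.add_cons, ← e1]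
        exact (Multiset.cons_inj_right w).1 this
      have := LS.FT.two h1 hp (ih' _ e1)
      rw [e2, add_assoc]
      exact this

/-- the multiset of holes `h` can be filled simultaneously, reading the variables `l` -/
def LS.Fill (H : LS Q n) (h : Multiset Q) (l : Multiset (Fin n)) : Prop :=
  ∀ (q : Q) (l' : Multiset (Fin n)) (K : Multiset Q), H.FT q l' (h + K) → H.FT q (l' + l) K

lemma LS.fill_zero (H : LS Q n) : H.Fill 0 0 := by
  intro q l' K h
  rw [zero_add] at h
  rw [add_zero]
  exact h

lemma LS.fill_add {H : LS Q n} {h h' : Multiset Q} {l l' : Multiset (Fin n)} (h1 : H.Fill h l)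
    (h2 : H.Fill h' l') : H.Fill (h + h') (l + l') := by
  intro q m K ht
  rw [add_assoc] at ht
  have := h2 _ _ _ (h1 _ _ _ ht)
  rw [← add_assoc]
  exact this

lemma LS.fill_single {H : LS Q n} {w : Q} {l : Multiset (Fin n)} (hw : H.FT w l 0) :
    H.Fill {w} l := by
  intro q m K ht
  exact ht.paste hw K (by rw [Multiset.singleton_add])

lemma LS.Fill.close {H : LS Q n} {q : Q} {h : Multiset Q} {l l' : Multiset (Fin n)}
    (hf : H.Fill h l) (ht : H.FT q l' h) : H.FT q (l' + l) 0 := by
  apply hf
  rw [add_zero]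
  exact ht

/-- with a rank function, a hole is either the whole tree or of smaller rank -/
lemma LS.FT.rank {H : LS Q n} {rk : Q → ℕ} (h1 : ∀ p q, H.r1 p q → rk p < rk q)
    (h2 : ∀ p p' q, H.r2 p p' q → rk p < rk q ∧ rk p' < rk q) {q : Q} {l : Multiset (Fin n)}
    {h : Multiset Q} (ht : H.FT q l h) : (l = 0 ∧ h = {q}) ∨ ∀ w ∈ h, rk w < rk q := by
  induction ht with
  | hole q => exact Or.inl ⟨rfl, rfl⟩
  | leaf _ => right; simp
  | @one p q l h hr _ ih =>
    right
    intro w hw
    have := h1 _ _ hr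
    rcases ih with ⟨_, rfl⟩ | ih
    · rw [Multiset.mem_singleton] at hw
      subst hw; exact this
    · exact (ih w hw).trans this
  | @two p p' q l l' h h' hr _ _ ih ih' =>
    right
    intro w hw
    have := h2 _ _ _ hr
    rcases Multiset.mem_add.1 hw with hw | hw
    · rcases ih with ⟨_, rfl⟩ | ih
      · rw [Multiset.mem_singleton] at hw
        subst hw; exact this.1
      · exact (ih w hw).trans this.1
    · rcases ih' with ⟨_, rfl⟩ | ih'
      · rw [Multiset.mem_singleton] at hw
        subst hw; exact this.2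
      · exact (ih' w hw).trans this.2

open Classical in
/-- the variables outside `S` read by some formal tree with the given root and holes -/
noncomputable def LS.V (H : LS Q n) (S : Finset (Fin n)) (P : Q × Multiset Q) : Finset (Fin n) :=
  Finset.univ.filter (fun i => i ∉ S ∧ ∃ l, H.FT P.1 l P.2 ∧ i ∈ l)

lemma LS.mem_V {H : LS Q n} {S : Finset (Fin n)} {P : Q × Multiset Q} {i : Fin n} :
    i ∈ H.V S P ↔ i ∉ S ∧ ∃ l, H.FT P.1 l P.2 ∧ i ∈ l := by
  simp [LS.V]

lemma LS.V_self {H : LS Q n} {rk : Q → ℕ} (h1 : ∀ p q, H.r1 p q → rk p < rk q)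
    (h2 : ∀ p p' q, H.r2 p p' q → rk p < rk q ∧ rk p' < rk q) (S : Finset (Fin n)) (q : Q) :
    H.V S (q, {q}) = ∅ := by
  rw [Finset.eq_empty_iff_forall_notMem]
  intro i hi
  obtain ⟨_, l, hl, hil⟩ := LS.mem_V.1 hi
  rcases hl.rank h1 h2 with ⟨rfl, _⟩ | h
  · simp at hil
  · exact absurd (h q (by simp)) (lt_irrefl _)

end Pool.Agent.RK44
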