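import Pool.Agent.RK44.Formal

/-! Greedy decomposition of a derivation into pieces reading few variables. -/

namespace Pool.Agent.RK44

variable {Q : Type} {n : ℕ}

/-- truth of a piece -/
def LS.T (H : LS Q n) (z : Fin n → Bool) (P : Q × Multiset Q) : Prop := ∃ l, H.TL z P.1 l P.2

/-- A decomposition of a derivation of `x` on the input `y`: an open piece `(x, h)`, closed pieces
`C`, and pieces `E` that read many variables. -/
structure Dec (H : LS Q n) (S : Finset (Fin n)) (U : Finset Q) (β : ℕ) (y : Fin n → Bool) (x : Q)
    (h : Multiset Q) (C E : List (Q × Multiset Q)) : Prop where
  light : (H.V S (x, h)).card ≤ β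
  lightC : ∀ P ∈ C, (H.V S P).card ≤ β
  heavy : ∀ P ∈ E, β + 1 ≤ (H.V S P).card
  tx : H.T y (x, h)
  tC : ∀ P ∈ C, H.T y P
  tE : ∀ P ∈ E, H.T y P
  fillC : ∀ c : Q × Multiset Q → Multiset (Fin n), (∀ P ∈ C, H.FT P.1 (c P) P.2) →
    H.Fill h (C.map c).sum
  fillE : ∀ c : Q × Multiset Q → Multiset (Fin n), (∀ P ∈ E, H.FT P.1 (c P) P.2) →
    H.Fill h (E.map c).sum
  sem : ∀ z, (∀ P ∈ C, H.T z P) → ∀ q ∈ h, H.Der z q
  cardC : C.length ≤ 2 * E.length
  cardh : h.card ≤ E.length
  cardP : ∀ P ∈ C, P.2.card ≤ E.length
  memh : ∀ q ∈ h, q ∈ U
  memC : ∀ P ∈ C, P.1 ∈ U ∧ ∀ q ∈ P.2, q ∈ U

theorem exists_dec (H : LS Q n) (S : Finset (Fin n)) (U : Finset Q) (β : ℕ) (rk : Q → ℕ)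
    (hr1 : ∀ p q, H.r1 p q → rk p < rk q)
    (hr2 : ∀ p p' q, H.r2 p p' q → rk p < rk q ∧ rk p' < rk q)
    (hU1 : ∀ p q, H.r1 p q → p ∈ U) (hU2 : ∀ p p' q, H.r2 p p' q → p ∈ U ∧ p' ∈ U)
    (hleaf : ∀ q, H.lf q → (H.V S (q, 0)).card ≤ β) {y : Fin n → Bool} {x : Q}
    (hx : H.Der y x) : x ∈ U → ∃ h C E, Dec H S U β y x h C E := by
  induction hx with
  | @leaf q h1 h2 =>
    intro hxU
    refine ⟨0, [], [], ?_⟩
    exact
      { light := hleaf _ h1
        lightC := by simp
        heavy := by simp
        tx := ⟨_, .leaf h1 h2⟩
        tC := by simp
        tE := by simp
        fillC := by
          intro c _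
          simpa using H.fill_zero
        fillE := by
          intro c _
          simpa using H.fill_zero
        sem := by simp
        cardC := by simp
        cardh := by simp
        cardP := by simp
        memh := by simp
        memC := by simp }
  | @one p x hr _ ih =>
    intro hxU
    obtain ⟨h, C, E, d⟩ := ih (hU1 _ _ hr)
    by_cases hlight : (H.V S (x, h)).card ≤ β
    · refine ⟨h, C, E, ?_⟩
      exact
        { light := hlight
          lightC := d.lightC
          heavy := d.heavy
          tx := by
            obtain ⟨l, hl⟩ := d.tx
            exact ⟨l, .one hr hl⟩
          tC := d.tC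
          tE := d.tE
          fillC := d.fillC
          fillE := d.fillE
          sem := d.sem
          cardC := d.cardC
          cardh := d.cardh
          cardP := d.cardP
          memh := d.memh
          memC := d.memC }
    · refine ⟨{x}, (p, h) :: C, (x, h) :: E, ?_⟩
      exact
        { light := by rw [LS.V_self hr1 hr2]; simp
          lightC := by
            intro P hP
            rcases List.mem_cons.1 hP with rfl | hP
            · exact d.light
            · exact d.lightC P hP
          heavy := by
            intro P hP
            rcases List.mem_cons.1 hP with rfl | hP
            · exact not_le.1 hlight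
            · exact d.heavy P hP
          tx := ⟨_, .hole x⟩
          tC := by
            intro P hP
            rcases List.mem_cons.1 hP with rfl | hP
            · exact d.tx
            · exact d.tC P hP
          tE := by
            intro P hP
            rcases List.mem_cons.1 hP with rfl | hP
            · obtain ⟨l, hl⟩ := d.tx
              exact ⟨l, .one hr hl⟩
            · exact d.tE P hP
          fillC := by
            intro c hc
            rw [List.map_cons, List.sum_cons]
            have h1 := d.fillC c fun P hP => hc P (List.mem_cons_of_mem _ hP)
            have h2 := hc (p, h) List.mem_cons_self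
            exact LS.fill_single (.one hr (h1.close h2))
          fillE := by
            intro c hc
            rw [List.map_cons, List.sum_cons]
            have h1 := d.fillE c fun P hP => hc P (List.mem_cons_of_mem _ hP)
            have h2 := hc (x, h) List.mem_cons_self
            exact LS.fill_single (h1.close h2)
          sem := by
            intro z hz q hq
            rw [Multiset.mem_singleton] at hq
            subst hq
            obtain ⟨l, hl⟩ := hz (p, h) List.mem_cons_self
            exact .one hr (hl.der (d.sem z fun P hP => hz P (List.mem_cons_of_mem _ hP)))
          cardC := by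
            have := d.cardC
            rw [List.length_cons, List.length_cons]
            omega
          cardh := by simp
          cardP := by
            intro P hP
            rw [List.length_cons]
            rcases List.mem_cons.1 hP with rfl | hP
            · have := d.cardh
              dsimp only
              omega
            · have := d.cardP P hP
              omega
          memh := by
            intro q hq
            rw [Multiset.mem_singleton] at hq
            subst hq
            exact hxU
          memC := by
            intro P hP
            rcases List.mem_cons.1 hP with rfl | hP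
            · exact ⟨hU1 _ _ hr, d.memh⟩
            · exact d.memC P hP }
  | @two a b x hr _ _ ih1 ih2 =>
    intro hxU
    obtain ⟨h1, C1, E1, d1⟩ := ih1 (hU2 _ _ _ hr).1
    obtain ⟨h2, C2, E2, d2⟩ := ih2 (hU2 _ _ _ hr).2
    have c1 := d1.cardC
    have c2 := d2.cardC
    have g1 := d1.cardh
    have g2 := d2.cardh
    have fC : ∀ c : Q × Multiset Q → Multiset (Fin n), (∀ P ∈ C1 ++ C2, H.FT P.1 (c P) P.2) →
        H.Fill (h1 + h2) ((C1 ++ C2).map c).sum := by
      intro c hc
      rw [List.map_append, List.sum_append]
      exact LS.fill_add (d1.fillC c fun P hP => hc P (List.mem_append_left _ hP))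
        (d2.fillC c fun P hP => hc P (List.mem_append_right _ hP))
    have fE : ∀ c : Q × Multiset Q → Multiset (Fin n), (∀ P ∈ E1 ++ E2, H.FT P.1 (c P) P.2) →
        H.Fill (h1 + h2) ((E1 ++ E2).map c).sum := by
      intro c hc
      rw [List.map_append, List.sum_append]
      exact LS.fill_add (d1.fillE c fun P hP => hc P (List.mem_append_left _ hP))
        (d2.fillE c fun P hP => hc P (List.mem_append_right _ hP))
    have lC : ∀ P ∈ C1 ++ C2, (H.V S P).card ≤ β := by
      intro P hP
      rcases List.mem_append.1 hP with hP | hP
      · exact d1.lightC P hP
      · exact d2.lightC P hP
    have hE : ∀ P ∈ E1 ++ E2, β + 1 ≤ (H.V S P).card := by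
      intro P hP
      rcases List.mem_append.1 hP with hP | hP
      · exact d1.heavy P hP
      · exact d2.heavy P hP
    have tC : ∀ P ∈ C1 ++ C2, H.T y P := by
      intro P hP
      rcases List.mem_append.1 hP with hP | hP
      · exact d1.tC P hP
      · exact d2.tC P hP
    have tE : ∀ P ∈ E1 ++ E2, H.T y P := by
      intro P hP
      rcases List.mem_append.1 hP with hP | hP
      · exact d1.tE P hP
      · exact d2.tE P hP
    have cP : ∀ P ∈ C1 ++ C2, P.2.card ≤ (E1 ++ E2).length := by
      intro P hP
      rw [List.length_append]
      rcases List.mem_append.1 hP with hP | hP
      · have := d1.cardP P hP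
        omega
      · have := d2.cardP P hP
        omega
    have mC : ∀ P ∈ C1 ++ C2, P.1 ∈ U ∧ ∀ q ∈ P.2, q ∈ U := by
      intro P hP
      rcases List.mem_append.1 hP with hP | hP
      · exact d1.memC P hP
      · exact d2.memC P hP
    have hcl : (C1 ++ C2).length ≤ 2 * (E1 ++ E2).length := by
      rw [List.length_append, List.length_append]
      omega
    by_cases hlight : (H.V S (x, h1 + h2)).card ≤ β
    · refine ⟨h1 + h2, C1 ++ C2, E1 ++ E2, ?_⟩
      exact
        { light := hlight
          lightC := lC
          heavy := hE
          tx := by
            obtain ⟨l, hl⟩ := d1.tx
            obtain ⟨l', hl'⟩ := d2.tx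
            exact ⟨_, .two hr hl hl'⟩
          tC := tC
          tE := tE
          fillC := fC
          fillE := fE
          sem := by
            intro z hz q hq
            rcases Multiset.mem_add.1 hq with hq | hq
            · exact d1.sem z (fun P hP => hz P (List.mem_append_left _ hP)) q hq
            · exact d2.sem z (fun P hP => hz P (List.mem_append_right _ hP)) q hq
          cardC := hcl
          cardh := by
            rw [Multiset.card_add, List.length_append]
            omega
          cardP := cP
          memh := by
            intro q hq
            rcases Multiset.mem_add.1 hq with hq | hq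
            · exact d1.memh q hq
            · exact d2.memh q hq
          memC := mC }
    · refine ⟨{x}, (a, h1) :: (b, h2) :: (C1 ++ C2), (x, h1 + h2) :: (E1 ++ E2), ?_⟩
      exact
        { light := by rw [LS.V_self hr1 hr2]; simp
          lightC := by
            intro P hP
            rcases List.mem_cons.1 hP with rfl | hP
            · exact d1.light
            rcases List.mem_cons.1 hP with rfl | hP
            · exact d2.light
            · exact lC P hP
          heavy := by
            intro P hP
            rcases List.mem_cons.1 hP with rfl | hP
            · exact not_le.1 hlight
            · exact hE P hP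
          tx := ⟨_, .hole x⟩
          tC := by
            intro P hP
            rcases List.mem_cons.1 hP with rfl | hP
            · exact d1.tx
            rcases List.mem_cons.1 hP with rfl | hP
            · exact d2.tx
            · exact tC P hP
          tE := by
            intro P hP
            rcases List.mem_cons.1 hP with rfl | hP
            · obtain ⟨l, hl⟩ := d1.tx
              obtain ⟨l', hl'⟩ := d2.tx
              exact ⟨_, .two hr hl hl'⟩
            · exact tE P hP
          fillC := by
            intro c hc
            rw [List.map_cons, List.sum_cons, List.map_cons, List.sum_cons, List.map_append,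
              List.sum_append]
            have hca := hc (a, h1) (by simp)
            have hcb := hc (b, h2) (by simp)
            have f1 := d1.fillC c fun P hP => hc P (by simp [hP])
            have f2 := d2.fillC c fun P hP => hc P (by simp [hP])
            have := LS.FT.two hr (f1.close hca) (f2.close hcb)
            have e : c (a, h1) + (c (b, h2) + ((C1.map c).sum + (C2.map c).sum)) =
                (c (a, h1) + (C1.map c).sum) + (c (b, h2) + (C2.map c).sum) := by
              abel
            rw [e]
            exact LS.fill_single this
          fillE := by
            intro c hc
            rw [List.map_cons, List.sum_cons]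
            have h1' := fE c fun P hP => hc P (List.mem_cons_of_mem _ hP)
            have h2' := hc (x, h1 + h2) List.mem_cons_self
            exact LS.fill_single (h1'.close h2')
          sem := by
            intro z hz q hq
            rw [Multiset.mem_singleton] at hq
            subst hq
            obtain ⟨l, hl⟩ := hz (a, h1) (by simp)
            obtain ⟨l', hl'⟩ := hz (b, h2) (by simp)
            exact .two hr (hl.der (d1.sem z fun P hP => hz P (by simp [hP])))
              (hl'.der (d2.sem z fun P hP => hz P (by simp [hP])))
          cardC := by
            rw [List.length_cons, List.length_cons, List.length_cons]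
            omega
          cardh := by simp
          cardP := by
            intro P hP
            rw [List.length_cons, List.length_append]
            rcases List.mem_cons.1 hP with rfl | hP
            · dsimp only
              omega
            rcases List.mem_cons.1 hP with rfl | hP
            · dsimp only
              omega
            · have := cP P hP
              rw [List.length_append] at this
              omega
          memh := by
            intro q hq
            rw [Multiset.mem_singleton] at hq
            subst hq
            exact hxU
          memC := by
            intro P hP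
            rcases List.mem_cons.1 hP with rfl | hP
            · exact ⟨(hU2 _ _ _ hr).1, d1.memh⟩
            rcases List.mem_cons.1 hP with rfl | hP
            · exact ⟨(hU2 _ _ _ hr).2, d2.memh⟩
            · exact mC P hP }

end Pool.Agent.RK44
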