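import Pool.Agent.RK44.Circ
import Pool.Agent.Tame44.Avg

/-! The average-case bound for read-`k` circuits over local functions. -/

namespace Pool.Agent.RK44

open Pool.Agent.JT
open Pool.Agent.Tame44 (avg_slices combine)
open Pool.Agent.SemRO (mix RectFree Sensitive)

/-- number of fields of a code -/
def ex (k : ℕ) : ℕ := (2 * (k * k) + 1) * (4 * (k * k) + 1)

lemma param_ineq3 {n t Δ : ℕ} (hΔ : 16 ≤ Δ) (hn : Δ ≤ n) (ht : t = 8 * Δ) :
    n * (2 * t + 1) + (n / Δ + 2 + n) ≤ n / Δ * (t * t) := by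
  obtain ⟨l, hl⟩ : ∃ l, l = n / Δ := ⟨_, rfl⟩
  rw [← hl]
  have hl1 : 1 ≤ l := by rw [hl]; exact (Nat.one_le_div_iff (by omega)).2 hn
  have hn2 : n ≤ 2 * Δ * l := by
    have h1 := Nat.div_add_mod n Δ
    have h2 := Nat.mod_lt n (show 0 < Δ by omega)
    rw [← hl] at h1
    have h3 : Δ ≤ Δ * l := Nat.le_mul_of_pos_right _ hl1
    calc n ≤ Δ * l + Δ := by omega
      _ ≤ Δ * l + Δ * l := by omega
      _ = 2 * Δ * l := by ring
  have h1 : n * (2 * t + 2) ≤ 2 * Δ * l * (2 * t + 2) := Nat.mul_le_mul_right _ hn2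
  have h2 : n * (2 * t + 2) = n * (2 * t + 1) + n := by ring
  subst ht
  have h3 : 2 * Δ * l * (2 * (8 * Δ) + 2) = 32 * (Δ * Δ * l) + 4 * (Δ * l) := by ring
  have h4 : l * (8 * Δ * (8 * Δ)) = 64 * (Δ * Δ * l) := by ring
  have h5 : 16 * (Δ * l) ≤ Δ * (Δ * l) := Nat.mul_le_mul_right _ hΔ
  have h6 : Δ * (Δ * l) = Δ * Δ * l := by ring
  have h7 : 16 * l ≤ Δ * l := Nat.mul_le_mul_right _ hΔ
  rw [h4]
  omega

open Classical in
theorem rk_avg {k Δ t M D N : ℕ} (hk : 0 < k) (hΔ : Δ = 16 * 4 ^ k) (ht : t = 8 * Δ)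
    (hM : M = t * t * (t * t) + 1) (hD : D = t * t * M + 2) (hn1 : Δ ≤ N / D)
    (ε : ℝ) (hε : ε = 1 / (64 * 4 ^ k * (ex k + 1) * k * D)) {m : ℕ} (C : Circuit m)
    (f : Fin m → (Fin N → Bool) → Bool) (W : Fin m → Finset (Fin N)) (S : Finset (Fin N))
    (hW : ∀ j x y, (∀ i ∈ W j, x i = y i) → f j x = f j y)
    (hWc : ∀ j, ((W j).card : ℝ) ≤ ε * N) (hSc : (S.card : ℝ) ≤ ε * N)
    (hread : ReadAtMost k C W S)
    (hsound : ∀ y : Fin N → Bool, C.eval (fun j => f j y) = true →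
      lang (t * t) M Δ (List.ofFn y))
    (hbig : (2 : ℝ) ^ (-(ε * N)) *
      ((Finset.univ.filter (fun y : Fin N → Bool => lang (t * t) M Δ (List.ofFn y))).card : ℕ) ≤
      ((Finset.univ.filter (fun y : Fin N → Bool => C.eval (fun j => f j y) = true)).card : ℕ)) :
    (2 : ℝ) ^ (-(ε * N)) * 2 ^ (N / D) ≤ 2 ^ (N / D / Δ + 2) *
      (((4 * C.size + 4) ^ ex k * (t * 2 ^ (N / D - N / D / (4 * 4 ^ k))) : ℕ) : ℝ) := by
  obtain ⟨n, hn⟩ : ∃ n, n = N / D := ⟨_, rfl⟩
  rw [← hn] at hn1 ⊢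
  have hnD : N / (t * t * M + 2) = n := by rw [← hD, hn]
  have hNn : n * D ≤ N := by rw [hn]; exact Nat.div_mul_le_self _ _
  have hDpos : 0 < D := by omega
  have h4k : 0 < 4 ^ k := by positivity
  have hΔ16 : 16 ≤ Δ := by omega
  have hNn2 : N ≤ 2 * D * n := by
    have h2 : N < N / D * D + D := by
      have := Nat.div_add_mod N D
      have h3 := Nat.mod_lt N hDpos
      rw [mul_comm] at this
      omega
    rw [← hn] at h2
    have h3 : D ≤ n * D := Nat.le_mul_of_pos_left _ (by omega)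
    calc N ≤ n * D + D := h2.le
      _ ≤ n * D + n * D := by omega
      _ = 2 * D * n := by ring
  obtain ⟨ρ, hρ⟩ : ∃ ρ, ρ = N - n - t * t * (M * n) := ⟨_, rfl⟩
  have hexp : n * D = n + t * t * (M * n) + n := by rw [hD]; ring
  have hN : N = n + (t * t * (M * n) + ρ) := by omega
  have hρ0 : 0 < ρ := by omega
  have hnN : n ≤ N := by omega
  obtain ⟨l, hl⟩ : ∃ l, l = n / Δ := ⟨_, rfl⟩
  have hln : l ≤ n := by rw [hl]; exact Nat.div_le_self _ _
  have hlM : l ≤ M * n := hln.trans (Nat.le_mul_of_pos_left _ (by rw [hM]; omega))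
  have hmm : n * (t * t) * (t * t) + l ≤ M * n := by
    have : M * n = n * (t * t) * (t * t) + n := by rw [hM]; ring
    omega
  have htpos : 0 < t := by omega
  have htt : 0 < t * t := Nat.mul_pos htpos htpos
  have hpar := param_ineq3 hΔ16 hn1 ht
  rw [← hl] at hpar
  have hDr : (0 : ℝ) < D := by exact_mod_cast hDpos
  have hkr : (1 : ℝ) ≤ k := by exact_mod_cast hk
  have hexr : (0 : ℝ) ≤ ex k := Nat.cast_nonneg _
  have h4kr : (1 : ℝ) ≤ 4 ^ k := one_le_pow₀ (by norm_num)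
  have hεN : ε * N ≤ n / (4 * k) := by
    have h1 : (N : ℝ) ≤ 2 * D * n := by exact_mod_cast hNn2
    have h2 : (0 : ℝ) ≤ n := Nat.cast_nonneg _
    rw [hε]
    calc 1 / (64 * 4 ^ k * (ex k + 1) * k * D) * (N : ℝ)
        ≤ 1 / (64 * 4 ^ k * (ex k + 1) * k * D) * (2 * D * n) :=
          mul_le_mul_of_nonneg_left h1 (by positivity)
      _ = (n / (4 * k)) / (8 * 4 ^ k * (ex k + 1)) := by field_simp; ring
      _ ≤ n / (4 * k) := by
          apply div_le_self (by positivity)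
          nlinarith
  have hεN0 : 0 ≤ ε * N := by rw [hε]; positivity
  have h4 : ∀ a : ℕ, (a : ℝ) ≤ ε * N → 4 * k * a ≤ n := by
    intro a ha
    have h1 : (a : ℝ) ≤ n / (4 * k) := ha.trans hεN
    rw [le_div_iff₀ (by positivity)] at h1
    have h2 : ((4 * k * a : ℕ) : ℝ) ≤ n := by
      push_cast
      linarith
    exact_mod_cast h2
  have hWn : ∀ j, 4 * k * (W j).card ≤ n := fun j => h4 _ (hWc j)
  have hSn : 4 * S.card ≤ n := by
    have h1 := h4 _ hSc
    have h2 : 4 * 1 * S.card ≤ 4 * k * S.card :=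
      Nat.mul_le_mul_right _ (Nat.mul_le_mul_left _ hk)
    omega
  have hLang := lang_card (Δ := Δ) htt hnD hN hρ0 (by rw [← hl]; exact hlM)
  rw [← hl] at hLang
  set Bd := Finset.univ.filter (fun a : Fin (t * t) → Fin (M * n) → Bool =>
      ¬ RectFree {x : Fin n → Bool | HC l a x} t) with hBd
  have hbad := bad_seeds t n l (M * n) hmm
  rw [← hBd] at hbad
  obtain ⟨B, hB⟩ : ∃ B : ℕ, B = (4 * C.size + 4) ^ ex k * (t * 2 ^ (n - n / (4 * 4 ^ k))) :=
    ⟨_, rfl⟩
  rw [← hB]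
  have hgood : ∀ a ∉ Bd, ∀ b : Fin ρ → Bool,
      (((Finset.univ.filter (fun x : Fin n → Bool => unparts hN (x, a, b) ∈
        Finset.univ.filter (fun y : Fin N → Bool => C.eval (fun j => f j y) = true))).card : ℕ) : ℝ)
          ≤ B := by
    intro a ha b
    have hF : RectFree {x : Fin n → Bool | HC l a x} t := by
      by_contra hcon
      exact ha (Finset.mem_filter.2 ⟨Finset.mem_univ _, hcon⟩)
    set base := unparts hN (fun _ => false, a, b) with hbase
    have hp : ∀ x, paste n base x = unparts hN (x, a, b) := fun x => paste_unparts hN a b x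
    have hsub : {x : Fin n → Bool | lang (t * t) M Δ (List.ofFn (paste n base x))} ⊆
        {x : Fin n → Bool | HC l a x} := by
      intro x hx
      have hx' : lang (t * t) M Δ (List.ofFn (paste n base x)) := hx
      rw [hp x, lang_unparts _ _ _ hnD hN, ← hl] at hx'
      exact hx'.2
    set S' := Finset.univ.filter (fun i : Fin n => Fin.castLE hnN i ∈ S) with hS'
    have hS'c : S'.card ≤ S.card := by
      refine Finset.card_le_card_of_injOn (Fin.castLE hnN) ?_ ?_
      · intro i hi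
        exact (Finset.mem_filter.1 hi).2
      · intro i _ j _ h
        exact Fin.castLE_injective hnN h
    have hScc : n ≤ 2 * (S'ᶜ).card := by
      rw [Finset.card_compl, Fintype.card_fin]
      omega
    have h1 := system_bound (toLS C f W hW hnN base) S' (used C) k (n / (4 * 4 ^ k)) t rk
      (fun p q h => (toLS_r1 h).1) (fun p p' q h => (toLS_r2 h).1)
      (fun p q h => (toLS_r1 h).2) (fun p p' q h => (toLS_r2 h).2) (out_used C true) hk
      (fun q hq => by
        obtain ⟨j, hj⟩ := toLS_leaf (hW := hW) (hn := hnN) (base := base) S' hq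
        have h2 := hWn j
        have h3 : 4 * k * ((toLS C f W hW hnN base).V S' (q, 0)).card ≤ 4 * k * (W j).card :=
          Nat.mul_le_mul_left _ hj
        have h5 : 4 * k * ((toLS C f W hW hnN base).V S' (q, 0)).card =
          2 * (2 * k * ((toLS C f W hW hnN base).V S' (q, 0)).card) := by ring
        omega)
      (toLS_readK hread) (hF.mono hsub) (lang_paste_sensitive (t * t) M Δ hnN base)
      (fun z hz => by
        have := (toLS_iff (hW := hW) (hn := hnN) (base := base) z).2 hz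
        exact hsound _ this)
      (by
        have h2 := Nat.mul_div_le n (4 * 4 ^ k)
        have h3 : 4 * 4 ^ k * (n / (4 * 4 ^ k)) = 2 * (2 * 4 ^ k * (n / (4 * 4 ^ k))) := by ring
        omega)
    have h2 : (Finset.univ.filter (fun x : Fin n → Bool => unparts hN (x, a, b) ∈
        Finset.univ.filter (fun y : Fin N → Bool => C.eval (fun j => f j y) = true))) =
        Finset.univ.filter (fun x => (toLS C f W hW hnN base).Der x
          (toLS C f W hW hnN base).out) := by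
      ext x
      simp only [Finset.mem_filter, Finset.mem_univ, true_and]
      rw [← toLS_iff, hp x]
    rw [h2]
    have h3 : (used C).card + 2 ≤ 4 * C.size + 4 := by
      have := used_card C
      omega
    have h5 := h1.trans (Nat.mul_le_mul_right _ (Nat.pow_le_pow_left h3 _))
    rw [hB]
    exact_mod_cast h5
  have hSh := avg_slices hN (Finset.univ.filter (fun y : Fin N → Bool =>
    C.eval (fun j => f j y) = true)) Bd (B : ℝ) (Nat.cast_nonneg _) hgood
  rw [← hl]
  refine combine hN (by positivity) ?_ hbig (by exact_mod_cast hLang) hSh (Nat.cast_nonneg _)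
    (c := n * (2 * t + 1)) (by exact_mod_cast hbad) hpar
  rw [← Real.rpow_natCast 2 n, ← Real.rpow_add (by norm_num)]
  apply Real.one_le_rpow (by norm_num)
  have h1 : (n : ℝ) / (4 * k) ≤ n := by
    apply div_le_self (Nat.cast_nonneg _)
    linarith
  linarith

/-- end of the computation -/
lemma finish3 {n l δ a t s : ℕ} {e : ℝ} (he0 : 0 ≤ e) (hδn : δ ≤ n)
    (hd : ((a : ℝ) + 1) * e + l + 3 + 3 * a + t ≤ δ)
    (h : (2 : ℝ) ^ (-e) * 2 ^ n ≤ 2 ^ (l + 2) *
      (((4 * s + 4) ^ a * (t * 2 ^ (n - δ)) : ℕ) : ℝ)) :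
    (2 : ℝ) ^ e ≤ s := by
  by_contra hcon
  push Not at hcon
  have h1 : (1 : ℝ) ≤ 2 ^ e := Real.one_le_rpow (by norm_num) he0
  have h2 : (4 * (s : ℝ) + 4) ≤ 2 ^ (3 + e) := by
    rw [Real.rpow_add (by norm_num)]
    have : (2 : ℝ) ^ (3 : ℝ) = 8 := by norm_num
    rw [this]
    linarith
  have h3 : (4 * (s : ℝ) + 4) ^ a ≤ 2 ^ ((3 + e) * a) := by
    rw [Real.rpow_mul (by norm_num), Real.rpow_natCast]
    exact pow_le_pow_left₀ (by positivity) h2 _
  have h4 : (t : ℝ) ≤ 2 ^ (t : ℝ) := by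
    rw [Real.rpow_natCast]
    exact_mod_cast (Nat.lt_two_pow_self (n := t)).le
  have h5 : (2 : ℝ) ^ (n - δ) = 2 ^ ((n : ℝ) - δ) := by
    rw [← Real.rpow_natCast, Nat.cast_sub hδn]
  have h6 : (2 : ℝ) ^ (l + 2) = 2 ^ ((l : ℝ) + 2) := by
    rw [← Real.rpow_natCast]
    push_cast
    rfl
  have h7 : (2 : ℝ) ^ (l + 2) * (((4 * s + 4) ^ a * (t * 2 ^ (n - δ)) : ℕ) : ℝ) ≤
      2 ^ ((n : ℝ) - e - 1) := by
    push_cast
    rw [h5, h6]
    calc (2 : ℝ) ^ ((l : ℝ) + 2) * ((4 * (s : ℝ) + 4) ^ a * (t * 2 ^ ((n : ℝ) - δ)))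
        ≤ (2 : ℝ) ^ ((l : ℝ) + 2) * (2 ^ ((3 + e) * a) * (2 ^ (t : ℝ) * 2 ^ ((n : ℝ) - δ))) := by
          apply mul_le_mul_of_nonneg_left _ (by positivity)
          apply mul_le_mul h3 _ (by positivity) (by positivity)
          exact mul_le_mul_of_nonneg_right h4 (by positivity)
      _ = 2 ^ ((l : ℝ) + 2 + ((3 + e) * a + (t + ((n : ℝ) - δ)))) := by
          rw [← Real.rpow_add (by norm_num) (t : ℝ), ← Real.rpow_add (by norm_num) ((3 + e) * a),
            ← Real.rpow_add (by norm_num) ((l : ℝ) + 2)]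
      _ ≤ _ := by
          apply Real.rpow_le_rpow_of_exponent_le (by norm_num)
          nlinarith
  have h8 : (2 : ℝ) ^ (-e) * 2 ^ n = 2 ^ ((n : ℝ) - e) := by
    rw [← Real.rpow_natCast, ← Real.rpow_add (by norm_num)]
    congr 1
    ring
  have h9 : (2 : ℝ) ^ ((n : ℝ) - e - 1) < 2 ^ ((n : ℝ) - e) := by
    apply Real.rpow_lt_rpow_of_exponent_lt (by norm_num)
    linarith
  rw [h8] at h
  linarith

end Pool.Agent.RK44
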