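import Pool.Agent.RK44.Code
import Pool.Agent.Tame44.Descent

/-! Averaging over splits of the pieces; rectangles. -/

namespace Pool.Agent.RK44

open Pool.Agent.SemRO (mix RectFree Sensitive)
open Pool.Agent.Tame44 (res res_eq card_res card_le_mul exists_rows)

variable {n : ℕ}

lemma split_count {ι : Type*} [Fintype ι] [DecidableEq ι] {A B : Finset ι} (h : Disjoint A B)
    {k : ℕ} (hA : A.card ≤ k) (hB : B.card ≤ k) :
    2 ^ Fintype.card ι ≤ 4 ^ k * (Finset.univ.filter (fun J : Finset ι => A ⊆ J ∧ J ⊆ Bᶜ)).card := by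
  have hsub : A ⊆ Bᶜ := by
    intro a ha
    rw [Finset.mem_compl]
    exact Finset.disjoint_left.1 h ha
  have e : Finset.univ.filter (fun J : Finset ι => A ⊆ J ∧ J ⊆ Bᶜ) = Finset.Icc A Bᶜ := by
    ext J
    simp [Finset.mem_Icc]
  rw [e, Finset.card_Icc_finset hsub, Finset.card_compl]
  have : (4 : ℕ) = 2 ^ 2 := by norm_num
  rw [this, ← pow_mul, ← pow_add]
  apply Nat.pow_le_pow_right (by norm_num)
  have := Finset.card_le_univ B
  omega

/-- some split of the pieces has many variables on both sides -/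
lemma exists_split {ι : Type*} [Fintype ι] [DecidableEq ι] (V : ι → Finset (Fin n))
    (A : Finset (Fin n)) (k β δ : ℕ) (hVA : ∀ j, V j ⊆ A)
    (hd : ∀ i ∈ A, (Finset.univ.filter (fun j => i ∈ V j)).card ≤ k)
    (hβ : ∀ j, (V j).card ≤ β) (hk : 2 * k * β ≤ A.card) (hδ : 2 * 4 ^ k * δ ≤ A.card) :
    ∃ J : Finset ι, δ ≤ (A.filter (fun i => ∀ j, i ∈ V j → j ∈ J)).card ∧
      δ ≤ (A.filter (fun i => ∀ j, i ∈ V j → j ∉ J)).card := by
  classical
  rcases Nat.eq_zero_or_pos A.card with hA0 | hA0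
  · refine ⟨∅, ?_, ?_⟩ <;>
    · have h4 : 0 < 2 * 4 ^ k := by positivity
      have : δ = 0 := by
        rcases Nat.eq_zero_or_pos δ with h | h
        · exact h
        · have := Nat.mul_pos h4 h
          omega
      omega
  set S : Fin n → Finset ι := fun i => Finset.univ.filter (fun j => i ∈ V j) with hS
  have hmS : ∀ i j, j ∈ S i ↔ i ∈ V j := by
    intro i j
    simp [hS]
  -- pairs
  set Dp := (A ×ˢ A).filter (fun p => Disjoint (S p.1) (S p.2)) with hDp
  set Np := (A ×ˢ A).filter (fun p => ¬ Disjoint (S p.1) (S p.2)) with hNp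
  have hsum : Dp.card + Np.card = A.card * A.card := by
    rw [hDp, hNp, Finset.card_filter_add_card_filter_not, Finset.card_product]
  have hN : Np.card ≤ β * (k * A.card) := by
    have h1 : Np ⊆ (Finset.univ : Finset ι).biUnion (fun j => V j ×ˢ V j) := by
      intro p hp
      obtain ⟨_, h2⟩ := Finset.mem_filter.1 hp
      rw [Finset.not_disjoint_iff] at h2
      obtain ⟨j, h3, h4⟩ := h2
      exact Finset.mem_biUnion.2 ⟨j, Finset.mem_univ _, Finset.mem_product.2
        ⟨(hmS _ _).1 h3, (hmS _ _).1 h4⟩⟩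
    have h2 : ∑ j, (V j).card ≤ k * A.card := by
      have h3 : ∑ j, (V j).card = ∑ i ∈ A, (S i).card := by
        have e1 : ∀ j, (V j).card = ∑ i ∈ A, if i ∈ V j then 1 else 0 := by
          intro j
          rw [← Finset.sum_filter, Finset.sum_const, smul_eq_mul, mul_one]
          congr 1
          ext i
          rw [Finset.mem_filter]
          exact ⟨fun h => ⟨hVA j h, h⟩, fun h => h.2⟩
        rw [Finset.sum_congr rfl fun j _ => e1 j, Finset.sum_comm]
        refine Finset.sum_congr rfl fun i _ => ?_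
        rw [← Finset.sum_filter, Finset.sum_const, smul_eq_mul, mul_one]
      rw [h3]
      refine (Finset.sum_le_card_nsmul _ _ _ hd).trans ?_
      rw [smul_eq_mul, mul_comm]
    calc Np.card ≤ _ := Finset.card_le_card h1
      _ ≤ ∑ j, (V j ×ˢ V j).card := Finset.card_biUnion_le
      _ ≤ ∑ j, β * (V j).card := Finset.sum_le_sum fun j _ => by
          rw [Finset.card_product]
          exact Nat.mul_le_mul_right _ (hβ j)
      _ = β * ∑ j, (V j).card := by rw [Finset.mul_sum]
      _ ≤ _ := Nat.mul_le_mul_left _ h2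
  have hD : A.card * A.card ≤ 2 * Dp.card := by
    have h1 : 2 * (β * (k * A.card)) = 2 * k * β * A.card := by ring
    have h2 : 2 * k * β * A.card ≤ A.card * A.card := Nat.mul_le_mul_right _ hk
    omega
  -- double counting
  set X : Finset ι → Finset (Fin n) := fun J => A.filter (fun i => ∀ j, i ∈ V j → j ∈ J) with hX
  set Y : Finset ι → Finset (Fin n) := fun J => A.filter (fun i => ∀ j, i ∈ V j → j ∉ J) with hY
  have hXS : ∀ J i, i ∈ X J ↔ i ∈ A ∧ S i ⊆ J := by
    intro J i
    rw [hX, Finset.mem_filter]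
    constructor
    · rintro ⟨h1, h2⟩
      exact ⟨h1, fun j hj => h2 j ((hmS _ _).1 hj)⟩
    · rintro ⟨h1, h2⟩
      exact ⟨h1, fun j hj => h2 ((hmS _ _).2 hj)⟩
  have hYS : ∀ J i, i ∈ Y J ↔ i ∈ A ∧ J ⊆ (S i)ᶜ := by
    intro J i
    rw [hY, Finset.mem_filter]
    constructor
    · rintro ⟨h1, h2⟩
      exact ⟨h1, fun j hj => Finset.mem_compl.2 fun h => h2 j ((hmS _ _).1 h) hj⟩
    · rintro ⟨h1, h2⟩
      exact ⟨h1, fun j hj hJ => Finset.mem_compl.1 (h2 hJ) ((hmS _ _).2 hj)⟩
  have hcount : 2 ^ Fintype.card ι * Dp.card ≤ ∑ J, 4 ^ k * ((X J).card * (Y J).card) := by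
    have e1 : ∀ J, (X J).card * (Y J).card =
        ∑ p ∈ A ×ˢ A, if S p.1 ⊆ J ∧ J ⊆ (S p.2)ᶜ then 1 else 0 := by
      intro J
      rw [← Finset.card_product, ← Finset.sum_filter, Finset.sum_const, smul_eq_mul, mul_one]
      congr 1
      ext p
      rw [Finset.mem_product, hXS, hYS, Finset.mem_filter, Finset.mem_product]
      tauto
    calc 2 ^ Fintype.card ι * Dp.card = ∑ p ∈ Dp, 2 ^ Fintype.card ι := by
          rw [Finset.sum_const, smul_eq_mul, mul_comm]
      _ ≤ ∑ p ∈ Dp, 4 ^ k * (Finset.univ.filter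
            (fun J : Finset ι => S p.1 ⊆ J ∧ J ⊆ (S p.2)ᶜ)).card := by
          refine Finset.sum_le_sum fun p hp => ?_
          obtain ⟨h1, h2⟩ := Finset.mem_filter.1 hp
          obtain ⟨h3, h4⟩ := Finset.mem_product.1 h1
          exact split_count h2 (hd _ h3) (hd _ h4)
      _ ≤ ∑ p ∈ A ×ˢ A, 4 ^ k * (Finset.univ.filter
            (fun J : Finset ι => S p.1 ⊆ J ∧ J ⊆ (S p.2)ᶜ)).card :=
          Finset.sum_le_sum_of_subset (Finset.filter_subset _ _)
      _ = ∑ p ∈ A ×ˢ A, 4 ^ k * ∑ J : Finset ι, (if S p.1 ⊆ J ∧ J ⊆ (S p.2)ᶜ then 1 else 0) := by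
          refine Finset.sum_congr rfl fun p _ => ?_
          rw [Finset.card_filter]
      _ = 4 ^ k * ∑ J : Finset ι, ∑ p ∈ A ×ˢ A, (if S p.1 ⊆ J ∧ J ⊆ (S p.2)ᶜ then 1 else 0) := by
          rw [← Finset.mul_sum, Finset.sum_comm]
      _ = _ := by
          rw [Finset.mul_sum]
          refine Finset.sum_congr rfl fun J _ => ?_
          rw [e1]
  have hex : ∃ J, Dp.card ≤ 4 ^ k * ((X J).card * (Y J).card) := by
    by_contra hcon
    push Not at hcon
    have h1 : ∑ J : Finset ι, 4 ^ k * ((X J).card * (Y J).card) < ∑ J : Finset ι, Dp.card :=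
      Finset.sum_lt_sum_of_nonempty Finset.univ_nonempty fun J _ => hcon J
    rw [Finset.sum_const, Finset.card_univ, Fintype.card_finset, smul_eq_mul] at h1
    omega
  obtain ⟨J, hJ⟩ := hex
  refine ⟨J, ?_, ?_⟩
  · have h1 : (Y J).card ≤ A.card := Finset.card_le_card (Finset.filter_subset _ _)
    have h2 : A.card * A.card ≤ 2 * 4 ^ k * (X J).card * A.card := by
      calc A.card * A.card ≤ 2 * Dp.card := hD
        _ ≤ 2 * (4 ^ k * ((X J).card * (Y J).card)) := Nat.mul_le_mul_left _ hJ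
        _ ≤ 2 * (4 ^ k * ((X J).card * A.card)) :=
            Nat.mul_le_mul_left _ (Nat.mul_le_mul_left _ (Nat.mul_le_mul_left _ h1))
        _ = _ := by ring
    have h3 := Nat.le_of_mul_le_mul_right h2 hA0
    exact Nat.le_of_mul_le_mul_left (hδ.trans h3) (by positivity)
  · have h1 : (X J).card ≤ A.card := Finset.card_le_card (Finset.filter_subset _ _)
    have h2 : A.card * A.card ≤ 2 * 4 ^ k * (Y J).card * A.card := by
      calc A.card * A.card ≤ 2 * Dp.card := hD
        _ ≤ 2 * (4 ^ k * ((X J).card * (Y J).card)) := Nat.mul_le_mul_left _ hJ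
        _ ≤ 2 * (4 ^ k * (A.card * (Y J).card)) :=
            Nat.mul_le_mul_left _ (Nat.mul_le_mul_left _ (Nat.mul_le_mul_right _ h1))
        _ = _ := by ring
    have h3 := Nat.le_of_mul_le_mul_right h2 hA0
    exact Nat.le_of_mul_le_mul_left (hδ.trans h3) (by positivity)

/-- the same with explicit sets -/
lemma exists_split' {ι : Type*} [Fintype ι] (V : ι → Finset (Fin n))
    (A : Finset (Fin n)) (k β δ : ℕ) (hVA : ∀ j, V j ⊆ A)
    (hd : ∀ i ∈ A, (Finset.univ.filter (fun j => i ∈ V j)).card ≤ k)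
    (hβ : ∀ j, (V j).card ≤ β) (hk : 2 * k * β ≤ A.card) (hδ : 2 * 4 ^ k * δ ≤ A.card) :
    ∃ (J : Finset ι) (X Y : Finset (Fin n)), δ ≤ X.card ∧ δ ≤ Y.card ∧
      (∀ i ∈ X, i ∈ A ∧ ∀ j, i ∈ V j → j ∈ J) ∧ (∀ i ∈ Y, i ∈ A ∧ ∀ j, i ∈ V j → j ∉ J) := by
  classical
  obtain ⟨J, h1, h2⟩ := exists_split V A k β δ hVA hd hβ hk hδ
  exact ⟨J, _, _, h1, h2, fun i hi => Finset.mem_filter.1 hi, fun i hi => Finset.mem_filter.1 hi⟩

open Classical in
/-- embedded rectangles inside a rectangle-free set are small -/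
lemma card_rect3 {t : ℕ} {F : Set (Fin n → Bool)} (hF : RectFree F t) {X Y : Finset (Fin n)}
    (hXY : Disjoint X Y) {K : Finset (Fin n → Bool)}
    (hK : ∀ x ∈ K, ∀ y ∈ K, (∀ i, i ∉ X → i ∉ Y → x i = y i) → mix X x y ∈ F) {δ : ℕ}
    (hX : δ ≤ X.card) (hY : δ ≤ Y.card) : K.card ≤ t * 2 ^ (n - δ) := by
  have hXYn : X.card + Y.card ≤ n := by
    rw [← Finset.card_union_of_disjoint hXY]
    exact (Finset.card_le_univ _).trans (by rw [Fintype.card_fin])
  have hZ : ((X ∪ Y)ᶜ).card = n - (X.card + Y.card) := by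
    rw [Finset.card_compl, Fintype.card_fin, Finset.card_union_of_disjoint hXY]
  have h1 : (K.image (res (X ∪ Y)ᶜ)).card ≤ 2 ^ (n - (X.card + Y.card)) := by
    rw [← hZ]
    exact card_res _ K
  have hfib : ∀ b ∈ K.image (res (X ∪ Y)ᶜ), (K.filter (fun x => res (X ∪ Y)ᶜ x = b)).card ≤
      t * 2 ^ (X.card + Y.card - δ) := by
    intro b hb
    obtain ⟨x₀, hx₀, rfl⟩ := Finset.mem_image.1 hb
    set K' := K.filter (fun x => res (X ∪ Y)ᶜ x = res (X ∪ Y)ᶜ x₀) with hK'
    have hagree : ∀ x ∈ K', ∀ i, i ∉ X → i ∉ Y → x i = x₀ i := by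
      intro x hx i hi hi'
      exact res_eq.1 (Finset.mem_filter.1 hx).2 i (by
        rw [Finset.mem_compl, Finset.mem_union]
        tauto)
    have hrect : ∀ x ∈ K', ∀ y ∈ K', mix X x y ∈ F := by
      intro x hx y hy
      exact hK x (Finset.mem_filter.1 hx).1 y (Finset.mem_filter.1 hy).1 fun i hi hi' => by
        rw [hagree x hx i hi hi', hagree y hy i hi hi']
    have hsmall : (K'.image (res X)).card < t ∨ (K'.image (res Xᶜ)).card < t := by
      by_contra hcon
      push Not at hcon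
      obtain ⟨u, hu, hu'⟩ := exists_rows hcon.1
      obtain ⟨v, hv, hv'⟩ := exists_rows hcon.2
      obtain ⟨i, j, hij⟩ := hF X u v hu' (fun i j hij => by
        obtain ⟨x, hx, hne⟩ := hv' i j hij
        exact ⟨x, Finset.mem_compl.1 hx, hne⟩)
      exact hij (hrect _ (hu i) _ (hv j))
    have hp1 : (K'.image (res X)).card ≤ 2 ^ X.card := card_res X K'
    have hp2 : (K'.image (res Xᶜ)).card ≤ 2 ^ Y.card := by
      refine le_trans ?_ (card_res Y K')
      have : K'.image (res Xᶜ) ⊆ (K'.image (res Y)).image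
          (fun w i => if i ∈ Y then w i else if i ∈ X then false else x₀ i) := by
        intro w hw
        obtain ⟨x, hx, rfl⟩ := Finset.mem_image.1 hw
        refine Finset.mem_image.2 ⟨res Y x, Finset.mem_image_of_mem _ hx, ?_⟩
        funext i
        by_cases hiY : i ∈ Y
        · have hiX : i ∉ X := fun h => Finset.disjoint_left.1 hXY h hiY
          simp [res, hiY, hiX]
        · by_cases hiX : i ∈ X
          · simp [res, hiY, hiX]
          · simp only [res, hiY, hiX, if_false, Finset.mem_compl, not_false_iff, if_true]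
            exact (hagree x hx i hiX hiY).symm
      exact (Finset.card_le_card this).trans Finset.card_image_le
    refine (card_le_mul X K').trans ?_
    rcases hsmall with h | h
    · refine Nat.mul_le_mul h.le (hp2.trans (Nat.pow_le_pow_right (by norm_num) (by omega)))
    · rw [mul_comm]
      exact Nat.mul_le_mul h.le (hp1.trans (Nat.pow_le_pow_right (by norm_num) (by omega)))
  refine (Finset.card_le_mul_card_image K _ hfib).trans ?_
  calc t * 2 ^ (X.card + Y.card - δ) * (K.image (res (X ∪ Y)ᶜ)).card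
      ≤ t * 2 ^ (X.card + Y.card - δ) * 2 ^ (n - (X.card + Y.card)) := Nat.mul_le_mul_left _ h1
    _ = t * 2 ^ (n - δ) := by
        rw [mul_assoc, ← pow_add]
        congr 2
        omega

end Pool.Agent.RK44
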